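import Mathlib
import Pool.Agent.H411Z.LH.Defs
import Pool.Agent.H411Z.LH.Orthant

set_option autoImplicit false

open Pool.Agent.H411Z.LH

/-- There is an infinite connected transient graph of bounded degree on which every Lipschitz
harmonic function is constant. -/
theorem Pool.Agent.Results.MP_469b0e_pr.TransientCounter.result :
    ∃ (V : Type) (G : SimpleGraph V) (_ : G.LocallyFinite), Infinite V ∧ G.Connected ∧
      (∀ x, G.degree x ≤ 10) ∧ Transient G ∧
      ∀ f : V → ℝ, IsHarmonic G f → IsLip G f → ∀ x y, f x = f y :=
  transient_counter
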