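import Mathlib
import Pool.Agent.H411Z.LH.Defs
import Pool.Agent.H411Z.LH.Ends

set_option autoImplicit false

open Pool.Agent.H411Z.LH

universe u

/-- A connected locally finite graph with at least two ends (two distinct infinite components after
removing a finite set of vertices) carries a non-constant Lipschitz harmonic function. -/
theorem Pool.Agent.Results.MP_469b0e_pr.TwoEnds.result {V : Type u} (G : SimpleGraph V)
    [G.LocallyFinite] (hG : G.Connected) (K : Finset V) (C D : G.ComponentCompl (K : Set V))
    (hCD : C ≠ D) (hC : C.supp.Infinite) (hD : D.supp.Infinite) :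
    ∃ f : V → ℝ, IsHarmonic G f ∧ IsLip G f ∧ ∃ x y, f x ≠ f y :=
  two_ends G hG K C D hCD hC hD
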